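import Pool.Agent.Q81.EX.Stm

/-! CPT for project EX (MP_db815f_an): the set is convex and compact. -/

set_option autoImplicit false

namespace Pool.Agent.Q254.EX

open Pool.Agent.Q81.EX
open Set MeasureTheory Filter Topology

/-- the extension -/
noncomputable abbrev Ex (f : C(Icc (0 : ℝ) 1, ℝ)) : ℝ → ℝ := IccExtend (zero_le_one' ℝ) f

theorem Ex_cont (f : C(Icc (0 : ℝ) 1, ℝ)) : Continuous (Ex f) := f.continuous.Icc_extend'

theorem Ex_add (f g : C(Icc (0 : ℝ) 1, ℝ)) (a b x : ℝ) :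
    Ex (a • f + b • g) x = a * Ex f x + b * Ex g x := rfl

theorem dl_pos : 0 < dl := by
  unfold dl
  positivity

theorem Cc_pos : 0 < Cc := by
  unfold Cc
  exact div_pos (by norm_num) dl_pos

theorem wint_lin (w : ℝ → ℝ) (hw : Continuous w) (f g : C(Icc (0 : ℝ) 1, ℝ)) (a b : ℝ) :
    ∫ r in (0 : ℝ)..1, w r * Ex (a • f + b • g) r =
      a * (∫ r in (0 : ℝ)..1, w r * Ex f r) + b * ∫ r in (0 : ℝ)..1, w r * Ex g r := by
  have hf : Continuous fun r => w r * Ex f r := hw.mul (Ex_cont f)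
  have hg : Continuous fun r => w r * Ex g r := hw.mul (Ex_cont g)
  rw [← intervalIntegral.integral_const_mul, ← intervalIntegral.integral_const_mul,
    ← intervalIntegral.integral_add]
  · refine intervalIntegral.integral_congr fun r _ => ?_
    show w r * (a * Ex f r + b * Ex g r) = a * (w r * Ex f r) + b * (w r * Ex g r)
    ring
  · exact (continuous_const.mul hf).intervalIntegrable _ _
  · exact (continuous_const.mul hg).intervalIntegrable _ _

theorem wint_cont (w : ℝ → ℝ) (hw : Continuous w) (h1 : ∀ r ∈ Icc (0 : ℝ) 1, |w r| ≤ 1) :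
    Continuous (fun f : C(Icc (0 : ℝ) 1, ℝ) => ∫ r in (0 : ℝ)..1, w r * Ex f r) := by
  refine LipschitzWith.continuous (K := 1) (LipschitzWith.of_dist_le_mul fun f g => ?_)
  have hf : Continuous fun r => w r * Ex f r := hw.mul (Ex_cont f)
  have hg : Continuous fun r => w r * Ex g r := hw.mul (Ex_cont g)
  rw [dist_eq_norm, ← intervalIntegral.integral_sub (hf.intervalIntegrable _ _)
    (hg.intervalIntegrable _ _)]
  have h2 : ∀ r ∈ Set.uIoc (0 : ℝ) 1, ‖w r * Ex f r - w r * Ex g r‖ ≤ dist f g := by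
    intro r hr
    rw [uIoc_of_le zero_le_one] at hr
    rw [← mul_sub, norm_mul, Real.norm_eq_abs]
    have h3 : ‖Ex f r - Ex g r‖ ≤ dist f g := by
      rw [← dist_eq_norm]
      exact ContinuousMap.dist_apply_le_dist _
    calc |w r| * ‖Ex f r - Ex g r‖ ≤ 1 * dist f g :=
          mul_le_mul (h1 r ⟨hr.1.le, hr.2⟩) h3 (norm_nonneg _) zero_le_one
      _ = dist f g := one_mul _
  have h4 := intervalIntegral.norm_integral_le_of_norm_le_const h2
  simpa using h4

theorem w1 : Continuous (fun r : ℝ => r) := continuous_id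
theorem w2 : Continuous (fun r : ℝ => r ^ 2) := continuous_pow 2

theorem closed : IsClosed KC := by
  refine IsSeqClosed.isClosed ?_
  intro f f0 hf hlim
  have hx : ∀ x, Tendsto (fun n => Ex (f n) x) atTop (𝓝 (Ex f0 x)) := fun x =>
    ((continuous_eval_const (F := C(Icc (0 : ℝ) 1, ℝ)) (projIcc (0 : ℝ) 1 zero_le_one x)).tendsto f0).comp hlim
  have hI1 : Tendsto (fun n => I1 (Ex (f n))) atTop (𝓝 (I1 (Ex f0))) :=
    ((wint_cont (fun r => r) w1 (fun r hr => by rw [abs_of_nonneg hr.1]; exact hr.2)).tendsto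
      f0).comp hlim
  have hI2 : Tendsto (fun n => I2 (Ex (f n))) atTop (𝓝 (I2 (Ex f0))) :=
    ((wint_cont (fun r => r ^ 2) w2 (fun r hr => by
      rw [abs_of_nonneg (by positivity)]; exact pow_le_one₀ hr.1 hr.2)).tendsto f0).comp hlim
  refine ⟨⟨(Ex_cont f0).continuousOn, ⟨convex_Icc _ _, ?_⟩, ?_, ?_, ?_⟩, ?_, ?_⟩
  · intro x hxx y hyy a b ha hb hab
    exact le_of_tendsto_of_tendsto' (((hx x).const_smul a).add ((hx y).const_smul b)) (hx _)
      (fun n => (hf n).1.conc.2 hxx hyy ha hb hab)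
  · refine tendsto_nhds_unique (hx 0) ?_
    have : (fun n => Ex (f n) 0) = fun _ => (0 : ℝ) := funext fun n => (hf n).1.zero
    rw [this]
    exact tendsto_const_nhds
  · refine tendsto_nhds_unique (hx 1) ?_
    have : (fun n => Ex (f n) 1) = fun _ => (0 : ℝ) := funext fun n => (hf n).1.one
    rw [this]
    exact tendsto_const_nhds
  · refine tendsto_nhds_unique hI1 ?_
    have : (fun n => I1 (Ex (f n))) = fun _ => (2 / 3 : ℝ) := funext fun n => (hf n).1.mom
    rw [this]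
    exact tendsto_const_nhds
  · exact ge_of_tendsto' (tendsto_const_nhds.sub hI2) (fun n => (hf n).2.1)
  · intro s hs
    exact le_of_tendsto' (hx s) (fun n => (hf n).2.2 s hs)

theorem conv : Convex ℝ KC := by
  intro f hf g hg a b ha hb hab
  obtain ⟨hf1, hf2, hf3⟩ := hf
  obtain ⟨hg1, hg2, hg3⟩ := hg
  refine ⟨⟨(Ex_cont _).continuousOn, (hf1.conc.smul ha).add (hg1.conc.smul hb), ?_, ?_, ?_⟩,
    ?_, ?_⟩
  · have e1 : Ex f 0 = 0 := hf1.zero
    have e2 : Ex g 0 = 0 := hg1.zero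
    show Ex (a • f + b • g) 0 = 0
    rw [Ex_add, e1, e2, mul_zero, mul_zero, add_zero]
  · have e1 : Ex f 1 = 0 := hf1.one
    have e2 : Ex g 1 = 0 := hg1.one
    show Ex (a • f + b • g) 1 = 0
    rw [Ex_add, e1, e2, mul_zero, mul_zero, add_zero]
  · have e1 : I1 (Ex f) = 2 / 3 := hf1.mom
    have e2 : I1 (Ex g) = 2 / 3 := hg1.mom
    have e3 : I1 (Ex (a • f + b • g)) = a * I1 (Ex f) + b * I1 (Ex g) :=
      wint_lin (fun r => r) w1 f g a b
    show I1 (Ex (a • f + b • g)) = 2 / 3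
    rw [e3, e1, e2, ← add_mul, hab, one_mul]
  · have e1 : dl ≤ 1 / 2 - I2 (Ex f) := hf2
    have e2 : dl ≤ 1 / 2 - I2 (Ex g) := hg2
    have e3 : I2 (Ex (a • f + b • g)) = a * I2 (Ex f) + b * I2 (Ex g) :=
      wint_lin (fun r => r ^ 2) w2 f g a b
    show dl ≤ 1 / 2 - I2 (Ex (a • f + b • g))
    rw [e3]
    have h1 := mul_le_mul_of_nonneg_left e1 ha
    have h2 := mul_le_mul_of_nonneg_left e2 hb
    have h3 : dl = a * dl + b * dl := by rw [← add_mul, hab, one_mul]
    have h4 : (1 / 2 : ℝ) = a * (1 / 2) + b * (1 / 2) := by rw [← add_mul, hab, one_mul]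
    linarith
  · intro s hs
    have e1 : Ex f s ≤ Cc * (s * Real.sqrt (1 - s)) := hf3 s hs
    have e2 : Ex g s ≤ Cc * (s * Real.sqrt (1 - s)) := hg3 s hs
    show Ex (a • f + b • g) s ≤ Cc * (s * Real.sqrt (1 - s))
    rw [Ex_add]
    have h1 := mul_le_mul_of_nonneg_left e1 ha
    have h2 := mul_le_mul_of_nonneg_left e2 hb
    have h3 : Cc * (s * Real.sqrt (1 - s)) =
        a * (Cc * (s * Real.sqrt (1 - s))) + b * (Cc * (s * Real.sqrt (1 - s))) := by
      rw [← add_mul, hab, one_mul]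
    linarith

theorem nonneg {p : ℝ → ℝ} (hp : Adm p) {s : ℝ} (hs : s ∈ Icc (0 : ℝ) 1) : 0 ≤ p s := by
  have h := hp.conc.2 (left_mem_Icc.2 zero_le_one) (right_mem_Icc.2 zero_le_one)
    (by linarith [hs.2] : 0 ≤ 1 - s) hs.1 (by ring)
  rw [hp.zero, hp.one] at h
  simpa using h

theorem upper {p : ℝ → ℝ} (h3 : ∀ s ∈ Icc (0 : ℝ) 1, p s ≤ Cc * (s * Real.sqrt (1 - s)))
    {s : ℝ} (hs : s ∈ Icc (0 : ℝ) 1) : p s ≤ Cc := by
  have h1 : Real.sqrt (1 - s) ≤ 1 := Real.sqrt_le_one.2 (by linarith [hs.1])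
  have h2 : s * Real.sqrt (1 - s) ≤ 1 := mul_le_one₀ hs.2 (Real.sqrt_nonneg _) h1
  calc p s ≤ Cc * (s * Real.sqrt (1 - s)) := h3 s hs
    _ ≤ Cc * 1 := mul_le_mul_of_nonneg_left h2 Cc_pos.le
    _ = Cc := mul_one _

theorem holder {p : ℝ → ℝ} (hp : Adm p)
    (h3 : ∀ s ∈ Icc (0 : ℝ) 1, p s ≤ Cc * (s * Real.sqrt (1 - s))) {s t : ℝ}
    (hs : 0 ≤ s) (hst : s ≤ t) (ht : t ≤ 1) : |p t - p s| ≤ Cc * Real.sqrt (t - s) := by
  have hd0 : 0 ≤ t - s := by linarith
  have hd1 : t - s ≤ 1 := by linarith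
  have hsq : t - s ≤ Real.sqrt (t - s) := by
    have h1 : Real.sqrt (t - s) ≤ 1 := Real.sqrt_le_one.2 hd1
    calc t - s = Real.sqrt (t - s) * Real.sqrt (t - s) := (Real.mul_self_sqrt hd0).symm
      _ ≤ Real.sqrt (t - s) * 1 := mul_le_mul_of_nonneg_left h1 (Real.sqrt_nonneg _)
      _ = _ := mul_one _
  have hA : p t ≤ p s + p (t - s) := by
    rcases eq_or_lt_of_le (hs.trans hst) with h0 | h0
    · have e1 : t = 0 := h0.symm
      have e2 : s = 0 := by linarith
      subst e1 e2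
      rw [sub_zero, hp.zero, add_zero]
    · have c1 := hp.conc.2 (⟨h0.le, ht⟩ : t ∈ Icc (0 : ℝ) 1) (left_mem_Icc.2 zero_le_one)
        (div_nonneg hs h0.le) (div_nonneg hd0 h0.le) (by field_simp; ring)
      have c2 := hp.conc.2 (⟨h0.le, ht⟩ : t ∈ Icc (0 : ℝ) 1) (left_mem_Icc.2 zero_le_one)
        (div_nonneg hd0 h0.le) (div_nonneg hs h0.le) (by field_simp; ring)
      rw [hp.zero] at c1 c2
      simp only [smul_eq_mul, mul_zero, add_zero] at c1 c2
      rw [div_mul_cancel₀ _ h0.ne'] at c1 c2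
      have c3 : s / t * p t + (t - s) / t * p t = p t := by
        field_simp
        ring
      linarith
  have hB : p s ≤ p t + p (1 - (t - s)) := by
    rcases eq_or_lt_of_le (hst.trans ht) with h0 | h0
    · have e2 : t = 1 := by linarith
      subst e2 h0
      rw [sub_self, sub_zero, hp.one, add_zero]
    · have h1s : 0 < 1 - s := by linarith
      have c1 := hp.conc.2 (⟨hs, h0.le⟩ : s ∈ Icc (0 : ℝ) 1) (right_mem_Icc.2 zero_le_one)
        (div_nonneg (by linarith : 0 ≤ 1 - t) h1s.le) (div_nonneg hd0 h1s.le)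
        (by field_simp; ring)
      have c2 := hp.conc.2 (⟨hs, h0.le⟩ : s ∈ Icc (0 : ℝ) 1) (right_mem_Icc.2 zero_le_one)
        (div_nonneg hd0 h1s.le) (div_nonneg (by linarith : 0 ≤ 1 - t) h1s.le)
        (by field_simp; ring)
      rw [hp.one] at c1 c2
      simp only [smul_eq_mul, mul_zero, add_zero, mul_one] at c1 c2
      have e1 : (1 - t) / (1 - s) * s + (t - s) / (1 - s) = t := by
        field_simp
        ring
      have e2 : (t - s) / (1 - s) * s + (1 - t) / (1 - s) = 1 - (t - s) := by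
        field_simp
        ring
      rw [e1] at c1
      rw [e2] at c2
      have c3 : (1 - t) / (1 - s) * p s + (t - s) / (1 - s) * p s = p s := by
        field_simp
        ring
      linarith
  have u1 : p (t - s) ≤ Cc * Real.sqrt (t - s) := by
    have h1 : Real.sqrt (1 - (t - s)) ≤ 1 := Real.sqrt_le_one.2 (by linarith)
    calc p (t - s) ≤ Cc * ((t - s) * Real.sqrt (1 - (t - s))) := h3 _ ⟨hd0, hd1⟩
      _ ≤ Cc * Real.sqrt (t - s) := by
        refine mul_le_mul_of_nonneg_left ?_ Cc_pos.le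
        calc (t - s) * Real.sqrt (1 - (t - s)) ≤ (t - s) * 1 :=
              mul_le_mul_of_nonneg_left h1 hd0
          _ ≤ Real.sqrt (t - s) := by rw [mul_one]; exact hsq
  have u2 : p (1 - (t - s)) ≤ Cc * Real.sqrt (t - s) := by
    have e : 1 - (1 - (t - s)) = t - s := by ring
    calc p (1 - (t - s)) ≤ Cc * ((1 - (t - s)) * Real.sqrt (1 - (1 - (t - s)))) :=
          h3 _ ⟨by linarith, by linarith⟩
      _ ≤ Cc * Real.sqrt (t - s) := by
        rw [e]
        refine mul_le_mul_of_nonneg_left ?_ Cc_pos.le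
        calc (1 - (t - s)) * Real.sqrt (t - s) ≤ 1 * Real.sqrt (t - s) :=
              mul_le_mul_of_nonneg_right (by linarith) (Real.sqrt_nonneg _)
          _ = Real.sqrt (t - s) := one_mul _
  rw [abs_le]
  constructor <;> linarith

theorem holder' {f : C(Icc (0 : ℝ) 1, ℝ)} (hf : f ∈ KC) (x y : Icc (0 : ℝ) 1) :
    dist (f x) (f y) ≤ Cc * Real.sqrt (dist x y) := by
  have e : ∀ z : Icc (0 : ℝ) 1, f z = Ex f z := fun z => (IccExtend_val _ _ z).symm
  rw [e x, e y, Real.dist_eq, Subtype.dist_eq, Real.dist_eq]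
  rcases le_total (x : ℝ) (y : ℝ) with h | h
  · have := holder hf.1 hf.2.2 x.2.1 h y.2.2
    rw [abs_sub_comm, abs_sub_comm (x : ℝ), abs_of_nonneg (sub_nonneg.2 h)]
    exact this
  · have := holder hf.1 hf.2.2 y.2.1 h x.2.2
    rw [abs_of_nonneg (sub_nonneg.2 h)]
    exact this

theorem comp : IsCompact KC := by
  let e := ContinuousMap.isometryEquivBoundedOfCompact (Icc (0 : ℝ) 1) ℝ
  have hA : IsCompact (e.toHomeomorph '' KC) := by
    refine BoundedContinuousFunction.arzela_ascoli₂ (Icc 0 Cc) isCompact_Icc _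
      (e.toHomeomorph.isClosedMap _ closed) ?_ ?_
    · rintro _ x ⟨f, hf, rfl⟩
      have h1 : f x = Ex f x := (IccExtend_val _ _ x).symm
      show f x ∈ Icc 0 Cc
      rw [h1]
      exact ⟨nonneg hf.1 x.2, upper hf.2.2 x.2⟩
    · refine Metric.equicontinuous_of_continuity_modulus (fun d => Cc * Real.sqrt d) ?_ _ ?_
      · have : Continuous fun d : ℝ => Cc * Real.sqrt d := by fun_prop
        have h2 := this.tendsto 0
        simpa using h2
      · rintro x y ⟨_, f, hf, rfl⟩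
        exact holder' hf x y
  exact e.toHomeomorph.isCompact_image.1 hA

theorem cpt : S_CPT := ⟨conv, comp⟩

end Pool.Agent.Q254.EX

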